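import Pool.Agent.helper99.IT.Spec

/-!
# Row it:ADO (MP_bf63dc_nt), spec Pool/Agent/helper99/IT/Spec.lean
-/

set_option autoImplicit false

namespace Pool.Agent.IT

open Finset Pool.Agent.AT

/-- the recursion solved -/
theorem ADO_rec {K : Type} [Field K] (A B C : K) (hB : B ≠ 0) (H : ℕ → K) (E : ℕ)
    (hH : ∀ i < E, A * H (i + 1) = B * H i + C) :
    ∀ e ≤ E, A ^ e * H e = B ^ e * (H 0 + C * (B⁻¹ * ∑ i ∈ range e, (A / B) ^ i)) := by
  intro e
  induction e with
  | zero => intro _; simp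
  | succ e ih =>
    intro he
    have h1 := ih (by omega)
    have h2 := hH e (by omega)
    have h3 : A ^ (e + 1) * H (e + 1) = B * (A ^ e * H e) + A ^ e * C := by
      calc A ^ (e + 1) * H (e + 1) = A ^ e * (A * H (e + 1)) := by ring
        _ = B * (A ^ e * H e) + A ^ e * C := by rw [h2]; ring
    rw [h3, h1, Finset.sum_range_succ]
    have h4 : B ^ (e + 1) * (B⁻¹ * (A / B) ^ e) = A ^ e := by
      rw [div_pow]
      field_simp
      ring
    calc B * (B ^ e * (H 0 + C * (B⁻¹ * ∑ i ∈ range e, (A / B) ^ i))) + A ^ e * C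
        = B ^ (e + 1) * (H 0 + C * (B⁻¹ * ∑ i ∈ range e, (A / B) ^ i)) + A ^ e * C := by ring
      _ = B ^ (e + 1) * (H 0 + C * (B⁻¹ * ∑ i ∈ range e, (A / B) ^ i)) +
          B ^ (e + 1) * (B⁻¹ * (A / B) ^ e) * C := by rw [h4]
      _ = _ := by ring

/-- the criterion in a prime field -/
theorem ADO_X {K : Type} [Field K] (A B C : K) (hA : A ≠ 0) (hB : B ≠ 0) (H : ℕ → K) (E : ℕ)
    (hH : ∀ i < E, A * H (i + 1) = B * H i + C) (e : Fin 4 → ℕ) (he : ∀ i, e i ≤ E) (X : K)
    (hX : ∀ i, X + C * (B⁻¹ * ∑ j ∈ range (e i), (A / B) ^ j) ≠ 0) :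
    ∃ x : K, ∀ i, A ^ (E - e i) * B ^ (e i) * x + H (e i) ≠ 0 := by
  refine ⟨(X - H 0) / A ^ E, ?_⟩
  intro i h0
  have h1 := ADO_rec A B C hB H E hH (e i) (he i)
  have h2 : A ^ (e i) * (A ^ (E - e i) * B ^ (e i) * ((X - H 0) / A ^ E) + H (e i)) =
      B ^ (e i) * (X + C * (B⁻¹ * ∑ j ∈ range (e i), (A / B) ^ j)) := by
    rw [mul_add, h1]
    have h3 : A ^ (e i) * (A ^ (E - e i) * B ^ (e i) * ((X - H 0) / A ^ E)) = B ^ (e i) * (X - H 0) := by
      have h4 : A ^ E = A ^ (e i) * A ^ (E - e i) := by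
        rw [← pow_add]; congr 1; have := he i; omega
      have h5 : A ^ E ≠ 0 := pow_ne_zero _ hA
      calc A ^ (e i) * (A ^ (E - e i) * B ^ (e i) * ((X - H 0) / A ^ E))
          = (A ^ (e i) * A ^ (E - e i)) * (B ^ (e i) * (X - H 0)) / A ^ E := by ring
        _ = A ^ E * (B ^ (e i) * (X - H 0)) / A ^ E := by rw [← h4]
        _ = B ^ (e i) * (X - H 0) := by field_simp
    rw [h3]; ring
  rw [h0, mul_zero] at h2
  have h6 : B ^ (e i) ≠ 0 := pow_ne_zero _ hB
  rcases mul_eq_zero.mp h2.symm with h | h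
  · exact h6 h
  · exact hX i h

theorem ADO_two : (2 : ZMod 3) ≠ 0 := by decide

theorem ADO_three : ∀ A B : ZMod 3, A ≠ 0 → B ≠ 0 → A ≠ B → A = -B := by decide

theorem ADO : ADO_stmt := by
  intro a b E c e h hAd hrec he hthree
  obtain ⟨ha, hb, hc0, hab, hac, hbc, hodd⟩ := hAd
  intro l hl
  haveI : Fact l.Prime := ⟨hl⟩
  -- reduction to a statement in `ZMod l`
  suffices hx : ∃ x : ZMod l, ∀ i, (a : ZMod l) ^ (E - e i) * (b : ZMod l) ^ (e i) * x + ((h (e i) : ℤ) : ZMod l) ≠ 0 by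
    obtain ⟨x, hx⟩ := hx
    refine ⟨x.val, ?_⟩
    intro i hdvd
    apply hx i
    have h1 := (ZMod.intCast_zmod_eq_zero_iff_dvd _ l).mpr hdvd
    push_cast at h1
    rw [ZMod.natCast_zmod_val] at h1
    exact h1
  have hrecZ : ∀ i < E, (a : ZMod l) * ((h (i + 1) : ℤ) : ZMod l) = (b : ZMod l) * ((h i : ℤ) : ZMod l) + (c : ZMod l) := by
    intro i hi
    have h1 := congrArg (fun z : ℤ => (z : ZMod l)) (hrec i hi)
    push_cast at h1
    exact h1
  have zero_nat : ∀ m : ℕ, (m : ZMod l) = 0 ↔ l ∣ m := fun m => ZMod.natCast_eq_zero_iff m l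
  have zero_int : ∀ m : ℤ, (m : ZMod l) = 0 ↔ (l : ℤ) ∣ m := fun m => ZMod.intCast_zmod_eq_zero_iff_dvd m l
  have hlp : Prime (l : ℤ) := Nat.prime_iff_prime_int.mp hl
  by_cases hA : (a : ZMod l) = 0
  · have hla : l ∣ a := (zero_nat a).mp hA
    have hB : (b : ZMod l) ≠ 0 := by
      intro h0
      have hlb : l ∣ b := (zero_nat b).mp h0
      have := Nat.dvd_gcd hla hlb
      rw [Nat.Coprime.gcd_eq_one hab] at this
      exact hl.one_lt.ne' (Nat.dvd_one.mp this)
    have hC : (c : ZMod l) ≠ 0 := by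
      intro h0
      have hlc : (l : ℤ) ∣ c := (zero_int c).mp h0
      have hla' : (l : ℤ) ∣ (a : ℤ) := Int.natCast_dvd_natCast.mpr hla
      exact hlp.not_isUnit (hac.isUnit_of_dvd' hla' hlc)
    refine ⟨(1 - ((h E : ℤ) : ZMod l)) / (b : ZMod l) ^ E, ?_⟩
    intro i
    by_cases hi : e i = E
    · rw [hi, Nat.sub_self, pow_zero, one_mul]
      have h5 : (b : ZMod l) ^ E ≠ 0 := pow_ne_zero _ hB
      rw [mul_div_cancel₀ _ h5]
      simp
    · have hlt : e i < E := lt_of_le_of_ne (he i) hi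
      have h1 := hrecZ (e i) hlt
      rw [hA, zero_mul] at h1
      rw [hA, zero_pow (by omega : E - e i ≠ 0), zero_mul, zero_mul, zero_add]
      intro h0
      rw [h0, mul_zero, zero_add] at h1
      exact hC h1.symm
  by_cases hB : (b : ZMod l) = 0
  · have hC : (c : ZMod l) ≠ 0 := by
      intro h0
      have hlc : (l : ℤ) ∣ c := (zero_int c).mp h0
      have hlb' : (l : ℤ) ∣ (b : ℤ) := Int.natCast_dvd_natCast.mpr ((zero_nat b).mp hB)
      exact hlp.not_isUnit (hbc.isUnit_of_dvd' hlb' hlc)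
    refine ⟨(1 - ((h 0 : ℤ) : ZMod l)) / (a : ZMod l) ^ E, ?_⟩
    intro i
    by_cases hi : e i = 0
    · rw [hi, Nat.sub_zero, pow_zero, mul_one]
      have h5 : (a : ZMod l) ^ E ≠ 0 := pow_ne_zero _ hA
      rw [mul_div_cancel₀ _ h5]
      simp
    · obtain ⟨m, hm⟩ := Nat.exists_eq_succ_of_ne_zero hi
      have hlt : m < E := by have := he i; omega
      have h1 := hrecZ m hlt
      rw [hB, zero_mul, zero_add] at h1
      rw [hB, zero_pow hi, mul_zero, zero_mul, zero_add, hm]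
      intro h0
      rw [Nat.succ_eq_add_one] at h0
      rw [h0, mul_zero] at h1
      exact hC h1.symm
  -- now `l` does not divide `a b`
  suffices hX : ∃ X : ZMod l, ∀ i, X + (c : ZMod l) * ((b : ZMod l)⁻¹ * ∑ j ∈ range (e i), ((a : ZMod l) / (b : ZMod l)) ^ j) ≠ 0 by
    obtain ⟨X, hX⟩ := hX
    exact ADO_X (a : ZMod l) (b : ZMod l) (c : ZMod l) hA hB (fun j => ((h j : ℤ) : ZMod l)) E hrecZ e he X hX
  by_cases hC : (c : ZMod l) = 0
  · refine ⟨1, ?_⟩
    intro i
    rw [hC, zero_mul, add_zero]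
    exact one_ne_zero
  have hla : ¬ l ∣ a := fun h0 => hA ((zero_nat a).mpr h0)
  have hlb : ¬ l ∣ b := fun h0 => hB ((zero_nat b).mpr h0)
  have hlc : ¬ (l : ℤ) ∣ c := fun h0 => hC ((zero_int c).mpr h0)
  by_cases hl2 : l = 2
  · exfalso
    subst hl2
    apply hodd
    refine ⟨?_, ?_, ?_⟩
    · rw [← Nat.not_even_iff_odd]; exact fun h0 => hla h0.two_dvd
    · rw [← Nat.not_even_iff_odd]; exact fun h0 => hlb h0.two_dvd
    · rw [← Int.not_even_iff_odd]
      intro h0
      apply hlc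
      have := h0.two_dvd
      exact_mod_cast this
  by_cases hl3 : l = 3
  · subst hl3
    by_cases hAB : (a : ZMod 3) = (b : ZMod 3)
    · -- `a = b` modulo 3
      have hr : ∃ r : ℤ, ∀ i, ¬ (3 : ℤ) ∣ (e i : ℤ) - r := by
        rcases hthree with h3 | h3 | h3
        · exfalso
          have h3' : Prime (3 : ℤ) := by exact_mod_cast hlp
          rcases h3'.dvd_or_dvd h3 with h4 | h4
          · rcases h3'.dvd_or_dvd h4 with h5 | h5
            · exact hla (by exact_mod_cast h5)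
            · exact hlb (by exact_mod_cast h5)
          · exact hlc (by exact_mod_cast h4)
        · exfalso
          apply h3
          have h4 : (((a : ℤ) - b : ℤ) : ZMod 3) = 0 := by
            push_cast
            rw [hAB, sub_self]
          have h5 := (zero_int _).mp h4
          exact_mod_cast h5
        · exact h3
      obtain ⟨r, hr⟩ := hr
      refine ⟨-((c : ZMod 3) * ((b : ZMod 3)⁻¹ * (r : ZMod 3))), ?_⟩
      intro i h0
      have hdiv : (a : ZMod 3) / (b : ZMod 3) = 1 := by rw [hAB]; exact div_self hB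
      rw [hdiv] at h0
      simp only [one_pow, Finset.sum_const, Finset.card_range, nsmul_eq_mul, mul_one] at h0
      have h1 : (c : ZMod 3) * ((b : ZMod 3)⁻¹ * ((e i : ZMod 3) - (r : ZMod 3))) = 0 := by
        rw [← h0]; ring
      rcases mul_eq_zero.mp h1 with h2 | h2
      · exact hC h2
      rcases mul_eq_zero.mp h2 with h3 | h3
      · exact (inv_ne_zero hB) h3
      · apply hr i
        have h4 : (((e i : ℤ) - r : ℤ) : ZMod 3) = 0 := by
          push_cast
          exact h3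
        have h5 := (zero_int _).mp h4
        exact_mod_cast h5
    · -- `a = - b` modulo 3
      have hneg : (a : ZMod 3) = -(b : ZMod 3) := ADO_three _ _ hA hB hAB
      have hdiv : (a : ZMod 3) / (b : ZMod 3) = -1 := by
        rw [hneg, neg_div, div_self hB]
      refine ⟨(c : ZMod 3) * (b : ZMod 3)⁻¹, ?_⟩
      intro i h0
      rw [hdiv, neg_one_geom_sum] at h0
      have hCB : (c : ZMod 3) * (b : ZMod 3)⁻¹ ≠ 0 := mul_ne_zero hC (inv_ne_zero hB)
      split_ifs at h0 with hev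
      · rw [mul_zero, mul_zero, add_zero] at h0
        exact hCB h0
      · rw [mul_one] at h0
        have h2 : (2 : ZMod 3) * ((c : ZMod 3) * (b : ZMod 3)⁻¹) = 0 := by
          rw [← h0]; ring
        rcases mul_eq_zero.mp h2 with h3 | h3
        · exact ADO_two h3
        · exact hCB h3
  -- `l ≥ 5`
  have hl5 : 4 < l := by
    have h1 := hl.two_le
    by_contra hcon
    have h2 : l = 4 := by omega
    rw [h2] at hl
    exact absurd hl (by norm_num)
  by_contra hcon
  push Not at hcon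
  have hsurj : Function.Surjective (fun i : Fin 4 =>
      -((c : ZMod l) * ((b : ZMod l)⁻¹ * ∑ j ∈ range (e i), ((a : ZMod l) / (b : ZMod l)) ^ j))) := by
    intro X
    obtain ⟨i, hi⟩ := hcon X
    exact ⟨i, (eq_neg_of_add_eq_zero_left hi).symm⟩
  have hcard := Fintype.card_le_of_surjective _ hsurj
  rw [ZMod.card, Fintype.card_fin] at hcard
  omega

end Pool.Agent.IT
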